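import Mathlib
import Pool.Agent.W218.SI.Dense

set_option autoImplicit false

/-! Values of arbitrary polynomials at the elements of a dense set of small primes, constant terms in
short intervals. -/

namespace Pool.Agent.TH415.SI

open Finset Polynomial Pool.Agent.Erdos456 Pool.Agent.Erdos456.Mert Pool.Agent.W218.HF
  Pool.Agent.W218.LF Pool.Agent.W218.PF Pool.Agent.W218.PG Pool.Agent.W218.SI

lemma primeS_mono {k : ℕ} (G : Fin k → ℕ → ℤ) (b : Fin k → ℕ) {T T' : Finset ℕ} (h : T' ⊆ T) :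
    primeS G b T' ≤ primeS G b T := by
  unfold primeS
  exact card_le_card (filter_subset_filter _ h)

lemma primeS_le_add {k : ℕ} (G : Fin k → ℕ → ℤ) (b : Fin k → ℕ) (T : Finset ℕ) (n : ℕ)
    (hT : ∀ t ∈ T, 1 ≤ t) :
    primeS G b T ≤ primeS G b (T.filter (fun t => n < t)) + n := by
  classical
  unfold primeS
  have h1 : T.filter (fun t : ℕ => ∀ i, (G i t + b i).toNat.Prime) ⊆
      (T.filter (fun t => n < t)).filter (fun t : ℕ => ∀ i, (G i t + b i).toNat.Prime) ∪ Icc 1 n := by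
    intro t ht
    rw [mem_filter] at ht
    rw [mem_union, mem_filter, mem_filter, mem_Icc]
    by_cases h : n < t
    · exact Or.inl ⟨⟨ht.1, h⟩, ht.2⟩
    · exact Or.inr ⟨hT t ht.1, by omega⟩
  refine (card_le_card h1).trans ((card_union_le _ _).trans ?_)
  rw [Nat.card_Icc]
  omega

theorem polyP : ∃ δ : ℝ, 0 < δ ∧ δ < 1 ∧ ∀ k : ℕ, 1 ≤ k → ∀ f : Fin k → ℤ[X],
    (∀ i, 1 ≤ (f i).natDegree) → ∀ c ρ : ℝ, 0 < c → 0 < ρ →
    ∃ κ : ℝ, 0 < κ ∧ ∃ X₀ : ℕ, 4 ≤ X₀ ∧ ∀ X H : Fin k → ℕ, (∀ i, X₀ ≤ X i) →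
    (∀ i, (X i : ℝ) ^ (1 - δ) ≤ H i) → (∀ i, H i ≤ X i) →
    ∀ x : ℕ, c * ∏ i, Real.log (X i) ≤ x / Real.log x →
    ∀ T ⊆ (Icc 1 x).filter Nat.Prime, (∀ i, ∀ t ∈ T, 2 * |(f i).eval (t : ℤ)| ≤ X i) →
      ρ * (x / Real.log x) ≤ (T.card : ℝ) →
    κ * ∏ i, (H i : ℝ) ≤ ((((Fintype.piFinset (fun i : Fin k => Ioc (X i) (X i + H i))).filter (fun b =>
      κ * (T.card / (∏ i, Real.log (X i))) ≤ primeS (fun i t => (f i).eval (t : ℤ)) b T ∧
      κ * primeS (fun i t => (f i).eval (t : ℤ)) b T ≤ T.card / (∏ i, Real.log (X i)))).card : ℕ) : ℝ) := by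
  classical
  obtain ⟨δ, hδ, hδ1, hmain⟩ := main5
  refine ⟨δ, hδ, hδ1, fun k hk f hd c ρ hc hρ => ?_⟩
  have hmom := fun i => mom_P (2 * k) (by omega) _ (hd i)
  choose C hC Xm hXm using hmom
  have hinj := fun i => poly_inj (f i) (hd i)
  choose N0 hN0 using hinj
  set CC : ℝ := ∑ i, C i with hCC
  have hCi : ∀ i, C i ≤ CC := fun i => single_le_sum (f := C) (fun j _ => (hC j).le) (mem_univ i)
  have hCC0 : 0 ≤ CC := sum_nonneg fun i _ => (hC i).le
  set n0 : ℕ := ∑ i, N0 i with hn0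
  have hNi : ∀ i, N0 i ≤ n0 := fun i => single_le_sum (f := N0) (fun j _ => Nat.zero_le _) (mem_univ i)
  obtain ⟨κ, hκ, X₁, hX₁, hM⟩ := hmain k hk (2 / (c * ρ)) (2 * CC / ρ) (by positivity) (by positivity)
  -- the parameter for which everything is large
  set Y : ℕ := ∑ i, Xm i + 3 + ⌈2 * (n0 : ℝ) / ρ⌉₊ with hY
  set κ' : ℝ := min (κ / 2) (1 / (1 / κ + n0 * (2 / (c * ρ)))) with hκ'
  have hden : 0 < 1 / κ + n0 * (2 / (c * ρ)) := by positivity
  have hκ'0 : 0 < κ' := by
    rw [hκ']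
    apply lt_min
    · positivity
    · positivity
  have hκ'1 : κ' ≤ κ / 2 := min_le_left _ _
  have hκ'2 : κ' * (1 / κ + n0 * (2 / (c * ρ))) ≤ 1 := by
    calc κ' * (1 / κ + n0 * (2 / (c * ρ))) ≤ 1 / (1 / κ + n0 * (2 / (c * ρ))) *
        (1 / κ + n0 * (2 / (c * ρ))) := by
          gcongr
          exact min_le_right _ _
      _ = 1 := by field_simp
  refine ⟨κ', hκ'0, max X₁ ⌈Real.exp ((Y : ℝ) / c)⌉₊, hX₁.trans (le_max_left _ _), ?_⟩
  intro X H hX hXH hHX x hcx T hT hxX hTc
  have hXX₁ : ∀ i, X₁ ≤ X i := fun i => (le_max_left _ _).trans (hX i)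
  have h4 : (4 : ℝ) ≤ (max X₁ ⌈Real.exp ((Y : ℝ) / c)⌉₊ : ℕ) := by
    exact_mod_cast hX₁.trans (le_max_left _ _)
  have hl := log_prod_ge hk (by linarith) hX
  have hYl : (Y : ℝ) / c ≤ Real.log ((max X₁ ⌈Real.exp ((Y : ℝ) / c)⌉₊ : ℕ) : ℝ) := by
    rw [Real.le_log_iff_exp_le (by linarith)]
    exact (Nat.le_ceil _).trans (by exact_mod_cast le_max_right _ _)
  have hY3 : (3 : ℝ) ≤ Y := by
    rw [hY]; push_cast
    linarith [show (0 : ℝ) ≤ ∑ i, (Xm i : ℝ) from sum_nonneg fun i _ => Nat.cast_nonneg _,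
      show (0 : ℝ) ≤ (⌈2 * (n0 : ℝ) / ρ⌉₊ : ℝ) from Nat.cast_nonneg _]
  have hYn : 2 * (n0 : ℝ) / ρ ≤ Y := by
    rw [hY]; push_cast
    linarith [show (0 : ℝ) ≤ ∑ i, (Xm i : ℝ) from sum_nonneg fun i _ => Nat.cast_nonneg _,
      Nat.le_ceil (2 * (n0 : ℝ) / ρ)]
  have hYx : (Y : ℝ) ≤ x / Real.log x := by
    have h1 := hYl.trans hl
    rw [div_le_iff₀ hc] at h1
    linarith
  have hx3 : 3 ≤ x := by
    by_contra hcon
    have hx2 : x ≤ 2 := by omega
    have h2 : (x : ℝ) / Real.log x < 3 := by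
      interval_cases x
      · simp
      · simp
      · have h3 := Real.log_two_gt_d9
        rw [div_lt_iff₀ (by push_cast; linarith)]
        push_cast
        linarith
    linarith
  have hx3r : (3 : ℝ) ≤ x := by exact_mod_cast hx3
  have hx0 : (0 : ℝ) < x := by linarith
  have hlx1 : 1 ≤ Real.log x := by
    rw [Real.le_log_iff_exp_le hx0]
    have := Real.exp_one_lt_d9
    linarith
  have hXx : (x : ℝ) / Real.log x ≤ x := by
    rw [div_le_iff₀ (by linarith)]
    nlinarith
  have hYx' : Y ≤ x := by exact_mod_cast hYx.trans hXx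
  have hxl0 : 0 < (x : ℝ) / Real.log x := by positivity
  -- the elements larger than `n0`
  set T' : Finset ℕ := T.filter (fun t => n0 < t) with hT'
  have hT'T : T' ⊆ T := filter_subset _ _
  have hTpos : ∀ t ∈ T, 1 ≤ t := fun t ht => (mem_Icc.1 (mem_filter.1 (hT ht)).1).1
  have hcard : (T.card : ℝ) ≤ 2 * T'.card := by
    have h1 : T ⊆ T' ∪ Icc 1 n0 := by
      intro t ht
      rw [mem_union, hT', mem_filter, mem_Icc]
      by_cases h : n0 < t
      · exact Or.inl ⟨ht, h⟩
      · exact Or.inr ⟨hTpos t ht, by omega⟩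
    have h2 := (card_le_card h1).trans (card_union_le _ _)
    rw [Nat.card_Icc, Nat.add_sub_cancel] at h2
    have h3 : (T.card : ℝ) ≤ T'.card + n0 := by exact_mod_cast h2
    have h5 : 2 * (n0 : ℝ) ≤ T.card := by
      have h6 := hYn.trans hYx
      rw [div_le_iff₀ hρ] at h6
      linarith
    linarith
  have hT'c : (T'.card : ℝ) ≤ T.card := by exact_mod_cast card_le_card hT'T
  have h2 : (x : ℝ) / Real.log x ≤ 2 * T'.card / ρ := by rw [le_div_iff₀ hρ]; linarith
  have hP0 : 0 < ∏ i, Real.log (X i) := by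
    have h1 : 0 < Real.log ((max X₁ ⌈Real.exp ((Y : ℝ) / c)⌉₊ : ℕ) : ℝ) :=
      Real.log_pos (by linarith)
    linarith
  have hlogT : ∏ i, Real.log (X i) ≤ 2 / (c * ρ) * T'.card := by
    calc ∏ i, Real.log (X i) = 1 / c * (c * ∏ i, Real.log (X i)) := by field_simp
      _ ≤ 1 / c * (2 * T'.card / ρ) := by
          have := hcx.trans h2
          gcongr
      _ = _ := by field_simp
  have hres := hM X H hXX₁ hXH hHX (fun i t => (f i).eval (t : ℤ)) T' (by
      intro i t ht
      have h1 := hxX i t (hT'T ht)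
      have h3 : (2 : ℝ) * |(((f i).eval (t : ℤ) : ℤ) : ℝ)| = ((2 * |(f i).eval (t : ℤ)| : ℤ) : ℝ) := by
        push_cast
        ring
      rw [h3]
      exact_mod_cast h1) (by
      intro t₁ h₁ t₂ h₂' hne i
      apply hN0 i t₁ t₂ _ _ hne
      · have := (mem_filter.1 h₁).2
        have := hNi i
        omega
      · have := (mem_filter.1 h₂').2
        have := hNi i
        omega) (by
      intro i
      have h1 := hXm i x (by
        have := single_le_sum (f := Xm) (fun _ _ => Nat.zero_le _) (mem_univ i)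
        omega) T' (by
          intro p hp
          have := hT (hT'T hp)
          simpa [PP] using this)
      refine h1.trans ?_
      calc C i * ((x : ℝ) / Real.log x) * T'.card ≤ CC * (2 * T'.card / ρ) * T'.card := by
            have := hCi i
            gcongr
        _ = _ := by field_simp) hlogT
  have hHH0 : 0 ≤ ∏ i, (H i : ℝ) := prod_nonneg fun i _ => Nat.cast_nonneg _
  calc κ' * ∏ i, (H i : ℝ) ≤ κ * ∏ i, (H i : ℝ) := by
        apply mul_le_mul_of_nonneg_right _ hHH0
        linarith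
    _ ≤ _ := hres
    _ ≤ _ := by
        rw [Nat.cast_le]
        apply card_le_card
        intro b hb
        rw [mem_filter] at hb ⊢
        refine ⟨hb.1, ?_, ?_⟩
        · have h5 := hb.2.1
          have h6 : (primeS (fun i t => (f i).eval (t : ℤ)) b T' : ℝ) ≤
              primeS (fun i t => (f i).eval (t : ℤ)) b T := by
            exact_mod_cast primeS_mono _ b hT'T
          refine le_trans ?_ (h5.trans h6)
          rw [mul_div_assoc]
          calc κ' * (T.card / ∏ i, Real.log (X i)) ≤ (κ / 2) * (2 * T'.card / ∏ i, Real.log (X i)) := by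
                gcongr
            _ = _ := by ring
        · have h5 := hb.2.2
          have h6 : (primeS (fun i t => (f i).eval (t : ℤ)) b T : ℝ) ≤
              primeS (fun i t => (f i).eval (t : ℤ)) b T' + n0 := by
            exact_mod_cast primeS_le_add _ b T n0 hTpos
          have h7 : (primeS (fun i t => (f i).eval (t : ℤ)) b T' : ℝ) ≤
              1 / κ * (T.card / ∏ i, Real.log (X i)) := by
            rw [one_div, ← div_eq_inv_mul, le_div_iff₀ hκ]
            calc _ = κ * (primeS (fun i t => (f i).eval (t : ℤ)) b T' : ℝ) := mul_comm _ _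
              _ ≤ T'.card / ∏ i, Real.log (X i) := h5
              _ ≤ _ := by gcongr
          have h8 : (n0 : ℝ) ≤ n0 * (2 / (c * ρ)) * (T.card / ∏ i, Real.log (X i)) := by
            have h9 : 1 ≤ (2 / (c * ρ)) * (T.card / ∏ i, Real.log (X i)) := by
              rw [← mul_div_assoc, le_div_iff₀ hP0, one_mul]
              refine hlogT.trans ?_
              gcongr
            calc (n0 : ℝ) = n0 * 1 := (mul_one _).symm
              _ ≤ n0 * ((2 / (c * ρ)) * (T.card / ∏ i, Real.log (X i))) := by gcongr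
              _ = _ := by ring
          have hTP : 0 ≤ (T.card : ℝ) / ∏ i, Real.log (X i) := by positivity
          calc κ' * (primeS (fun i t => (f i).eval (t : ℤ)) b T : ℝ) ≤
              κ' * ((1 / κ + n0 * (2 / (c * ρ))) * (T.card / ∏ i, Real.log (X i))) := by
                apply mul_le_mul_of_nonneg_left _ hκ'0.le
                rw [add_mul]
                linarith
            _ = (κ' * (1 / κ + n0 * (2 / (c * ρ)))) * (T.card / ∏ i, Real.log (X i)) := by ring
            _ ≤ 1 * (T.card / ∏ i, Real.log (X i)) := by gcongr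
            _ = _ := one_mul _

end Pool.Agent.TH415.SI
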